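import Mathlib

/-! The Baer-Suzuki theorem (proof of Alperin and Lyons). -/

set_option autoImplicit false

universe u

namespace E1adE

open Subgroup
open scoped Pointwise

/-- An invariant set in a `p`-group and a proper subset closed under generation. -/
theorem exists_normalizing {P : Type u} [Group P] [Finite P] {p : ℕ} [Fact p.Prime]
    (hP : IsPGroup p P) (E C : Set P) (hE : ∀ g z : P, z ∈ E ↔ g * z * g⁻¹ ∈ E)
    (hCE : C ⊆ E) (hne : C ≠ E) (hcl : ∀ z ∈ closure C, z ∈ E → z ∈ C) :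
    ∃ u ∈ E, u ∉ C ∧ ∀ c, c ∈ C ↔ u * c * u⁻¹ ∈ C := by
  classical
  let S : Set (Subgroup P) := {H | ∀ z, z ∈ H ∧ z ∈ E ↔ z ∈ C}
  have hS : S.Nonempty := by
    refine ⟨closure C, fun z => ⟨fun h => hcl z h.1 h.2, fun h => ⟨subset_closure h, hCE h⟩⟩⟩
  obtain ⟨H, hH⟩ := (Set.toFinite S).exists_maximal hS
  have hHS : ∀ z, z ∈ H ∧ z ∈ E ↔ z ∈ C := hH.prop
  have hHtop : H ≠ ⊤ := by
    rintro rfl
    apply hne
    ext z
    rw [← hHS z]
    simp
  have hnil : Group.IsNilpotent P := hP.isNilpotent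
  have hlt : H < normalizer (H : Set P) :=
    Group.normalizerCondition_of_isNilpotent H (lt_top_iff_ne_top.2 hHtop)
  have hN : normalizer (H : Set P) ∉ S := by
    intro h
    exact absurd (hH.le_of_ge h hlt.le) (not_le_of_gt hlt)
  have hN' : ¬ ∀ z, z ∈ normalizer (H : Set P) ∧ z ∈ E ↔ z ∈ C := hN
  push Not at hN'
  obtain ⟨u, hu⟩ := hN'
  rcases hu with ⟨⟨h1, h2⟩, h3⟩ | ⟨h1, h2⟩
  · refine ⟨u, h2, h3, fun c => ?_⟩
    rw [← hHS c, ← hHS (u * c * u⁻¹), ← hE u c]
    rw [← mem_normalizer_iff.1 h1 c]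
  · exfalso
    have h3 := (hHS u).2 h2
    exact h1 (hlt.le h3.1) h3.2

theorem baerSuzuki {G : Type u} [Group G] [Finite G] {p : ℕ} [Fact p.Prime] (x : G)
    (h : ∀ g : G, IsPGroup p (closure {x, g * x * g⁻¹} : Subgroup G)) :
    IsPGroup p (normalClosure {x} : Subgroup G) := by
  classical
  let D : Set G := {z | ∃ g : G, z = g * x * g⁻¹}
  have hD : ∀ g z : G, z ∈ D ↔ g * z * g⁻¹ ∈ D := by
    intro g z
    constructor
    · rintro ⟨a, rfl⟩
      exact ⟨g * a, by group⟩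
    · rintro ⟨a, ha⟩
      refine ⟨g⁻¹ * a, ?_⟩
      have : z = g⁻¹ * (g * z * g⁻¹) * g := by group
      rw [this, ha]
      group
  have hpair : ∀ u ∈ D, ∀ v ∈ D, IsPGroup p (closure {u, v} : Subgroup G) := by
    rintro _ ⟨a, rfl⟩ _ ⟨b, rfl⟩
    have h1 := (h (a⁻¹ * b)).map (MulAut.conj a).toMonoidHom
    have e : (closure {x, (a⁻¹ * b) * x * (a⁻¹ * b)⁻¹}).map (MulAut.conj a).toMonoidHom =
        closure {a * x * a⁻¹, b * x * b⁻¹} := by
      rw [MonoidHom.map_closure, Set.image_pair]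
      congr 2
      simp [mul_assoc]
    rwa [e] at h1
  -- all Sylow subgroups have the same intersection with `D`
  have key : ∀ P Q : Sylow p G, ∀ z ∈ D, z ∈ (P : Subgroup G) → z ∈ (Q : Subgroup G) := by
    by_contra hcon
    push Not at hcon
    let bad : Set (Sylow p G × Sylow p G) :=
      {PQ | ∃ z ∈ D, z ∈ (PQ.1 : Subgroup G) ∧ z ∉ (PQ.2 : Subgroup G)}
    have hbad : bad.Nonempty := by
      obtain ⟨P, Q, z, hz, hzP, hzQ⟩ := hcon
      exact ⟨(P, Q), z, hz, hzP, hzQ⟩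
    let f : Sylow p G × Sylow p G → ℕ := fun PQ =>
      ({z | z ∈ D ∧ z ∈ (PQ.1 : Subgroup G) ∧ z ∈ (PQ.2 : Subgroup G)} : Set G).ncard
    obtain ⟨⟨P, Q⟩, hPQ, hmax⟩ := (Set.toFinite bad).exists_maximalFor f bad hbad
    obtain ⟨z0, hz0, hz0P, hz0Q⟩ := hPQ
    -- cardinalities
    have hcard : ∀ A B : Sylow p G, ({z | z ∈ D ∧ z ∈ (A : Subgroup G)} : Set G).ncard =
        ({z | z ∈ D ∧ z ∈ (B : Subgroup G)} : Set G).ncard := by
      intro A B
      obtain ⟨g, rfl⟩ := MulAction.exists_smul_eq G A B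
      refine Set.ncard_congr (fun z _ => g * z * g⁻¹) ?_ ?_ ?_
      · rintro z ⟨h1, h2⟩
        refine ⟨(hD g z).1 h1, ?_⟩
        rw [Sylow.coe_subgroup_smul, mem_pointwise_smul_iff_inv_smul_mem, ← map_inv]
        simpa [mul_assoc] using h2
      · intro a b _ _ hab
        simpa using hab
      · rintro z ⟨h1, h2⟩
        refine ⟨g⁻¹ * z * g, ⟨?_, ?_⟩, by group⟩
        · rw [hD g]
          have : g * (g⁻¹ * z * g) * g⁻¹ = z := by group
          rwa [this]
        · rw [Sylow.coe_subgroup_smul, mem_pointwise_smul_iff_inv_smul_mem, ← map_inv] at h2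
          simpa [mul_assoc] using h2
    have hex : ∃ z ∈ D, z ∈ (Q : Subgroup G) ∧ z ∉ (P : Subgroup G) := by
      by_contra hno
      push Not at hno
      have hsub : ({z | z ∈ D ∧ z ∈ (Q : Subgroup G)} : Set G) ⊆ {z | z ∈ D ∧ z ∈ (P : Subgroup G)} :=
        fun z hz => ⟨hz.1, hno z hz.1 hz.2⟩
      have := Set.eq_of_subset_of_ncard_le hsub (hcard P Q).le (Set.toFinite _)
      have h1 : z0 ∈ ({z | z ∈ D ∧ z ∈ (P : Subgroup G)} : Set G) := ⟨hz0, hz0P⟩
      rw [← this] at h1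
      exact hz0Q h1.2
    -- the step
    have step : ∀ A B : Sylow p G, (∃ z ∈ D, z ∈ (A : Subgroup G) ∧ z ∉ (B : Subgroup G)) →
        ∃ u ∈ D, u ∈ (A : Subgroup G) ∧ u ∉ (B : Subgroup G) ∧
          ∀ c : G, (c ∈ D ∧ c ∈ (A : Subgroup G) ∧ c ∈ (B : Subgroup G)) ↔
            (u * c * u⁻¹ ∈ D ∧ u * c * u⁻¹ ∈ (A : Subgroup G) ∧ u * c * u⁻¹ ∈ (B : Subgroup G)) := by
      intro A B hAB
      let E : Set A := {z | (z : G) ∈ D}
      let C : Set A := {z | (z : G) ∈ D ∧ (z : G) ∈ (B : Subgroup G)}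
      obtain ⟨u, huE, huC, hu⟩ := exists_normalizing (P := A) A.isPGroup' E C (fun g z => hD g z)
        (fun z hz => hz.1) (by
          intro hCE
          obtain ⟨z, h1, h2, h3⟩ := hAB
          have h4 : (⟨z, h2⟩ : A) ∈ E := h1
          rw [← hCE] at h4
          exact h3 h4.2) (by
          intro z hz hzE
          refine ⟨hzE, ?_⟩
          have h1 : closure C ≤ (B : Subgroup G).subgroupOf A := (closure_le _).2 fun w hw => hw.2
          exact h1 hz)
      refine ⟨u, huE, u.2, fun hB => huC ⟨huE, hB⟩, fun c => ?_⟩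
      constructor
      · rintro ⟨h1, h2, h3⟩
        have := (hu ⟨c, h2⟩).1 ⟨h1, h3⟩
        exact ⟨this.1, mul_mem (mul_mem u.2 h2) (inv_mem u.2), this.2⟩
      · rintro ⟨h1, h2, h3⟩
        have hc : c ∈ (A : Subgroup G) := by
          have e : c = (u : G)⁻¹ * (u * c * (u : G)⁻¹) * u := by group
          rw [e]
          exact mul_mem (mul_mem (inv_mem u.2) h2) u.2
        have := (hu ⟨c, hc⟩).2 ⟨h1, h3⟩
        exact ⟨this.1, hc, this.2⟩
    obtain ⟨u, huD, huP, huQ, hu⟩ := step P Q ⟨z0, hz0, hz0P, hz0Q⟩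
    obtain ⟨v, hvD, hvQ, hvP, hv⟩ := step Q P hex
    let C : Set G := {z | z ∈ D ∧ z ∈ (P : Subgroup G) ∧ z ∈ (Q : Subgroup G)}
    have hnorm : ∀ w : G, (∀ c, c ∈ C ↔ w * c * w⁻¹ ∈ C) → w ∈ normalizer (closure C : Set G) := by
      intro w hw
      have e : (closure C).map (MulAut.conj w).toMonoidHom = closure C := by
        rw [MonoidHom.map_closure]
        congr 1
        ext z
        constructor
        · rintro ⟨c, hc, rfl⟩
          exact (hw c).1 hc
        · intro hz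
          refine ⟨w⁻¹ * z * w, ?_, ?_⟩
          · rw [hw]
            have e : w * (w⁻¹ * z * w) * w⁻¹ = z := by group
            rwa [e]
          · simp [mul_assoc]
      rw [mem_normalizer_iff]
      intro z
      constructor
      · intro hz
        have := mem_map_of_mem (MulAut.conj w).toMonoidHom hz
        rw [e] at this
        exact this
      · intro hz
        change w * z * w⁻¹ ∈ closure C at hz
        rw [← e] at hz
        obtain ⟨k, hk, hkz⟩ := hz
        have : k = z := by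
          have h1 : w * k * w⁻¹ = w * z * w⁻¹ := hkz
          simpa using h1
        rwa [← this]
    have huC : u ∈ normalizer (closure C : Set G) := hnorm u hu
    have hvC : v ∈ normalizer (closure C : Set G) := by
      refine hnorm v fun c => ?_
      have := hv c
      constructor
      · rintro ⟨h1, h2, h3⟩
        obtain ⟨h4, h5, h6⟩ := this.1 ⟨h1, h3, h2⟩
        exact ⟨h4, h6, h5⟩
      · rintro ⟨h1, h2, h3⟩
        obtain ⟨h4, h5, h6⟩ := this.2 ⟨h1, h3, h2⟩
        exact ⟨h4, h6, h5⟩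
    have hJ : IsPGroup p (closure {u, v} ⊔ closure C : Subgroup G) := by
      refine IsPGroup.to_sup_of_normal_right' (hpair u huD v hvD)
        (P.isPGroup'.to_le ((closure_le _).2 fun z hz => hz.2.1)) ?_
      rw [closure_le]
      rintro z (rfl | rfl)
      · exact huC
      · exact hvC
    obtain ⟨R, hR⟩ := hJ.exists_le_sylow
    have huR : u ∈ (R : Subgroup G) := hR (mem_sup_left (subset_closure (Or.inl rfl)))
    have hvR : v ∈ (R : Subgroup G) := hR (mem_sup_left (subset_closure (Or.inr rfl)))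
    have hCR : ∀ z ∈ C, z ∈ (R : Subgroup G) := fun z hz => hR (mem_sup_right (subset_closure hz))
    -- a larger intersection is not bad
    have big : ∀ A B : Sylow p G, (∃ w ∈ D, w ∈ (A : Subgroup G) ∧ w ∈ (B : Subgroup G) ∧ w ∉ C) →
        (∀ z ∈ C, z ∈ (A : Subgroup G) ∧ z ∈ (B : Subgroup G)) →
        ∀ z ∈ D, z ∈ (A : Subgroup G) → z ∈ (B : Subgroup G) := by
      rintro A B ⟨w, hwD, hwA, hwB, hwC⟩ hCAB z hz hzA
      by_contra hzB
      have h1 : (A, B) ∈ bad := ⟨z, hz, hzA, hzB⟩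
      have h2 : f (P, Q) < f (A, B) := by
        refine Set.ncard_lt_ncard ?_ (Set.toFinite _)
        refine ⟨fun c hc => ⟨hc.1, (hCAB c hc).1, (hCAB c hc).2⟩, fun hsub => ?_⟩
        exact hwC (hsub ⟨hwD, hwA, hwB⟩)
      have h3 := hmax h1 h2.le
      exact absurd h3 (not_le_of_gt h2)
    -- P and R
    have hPR := big P R ⟨u, huD, huP, huR, fun h => huQ h.2.2⟩ (fun z hz => ⟨hz.2.1, hCR z hz⟩)
    have hRQ := big R Q ⟨v, hvD, hvR, hvQ, fun h => hvP h.2.1⟩ (fun z hz => ⟨hCR z hz, hz.2.2⟩)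
    exact huQ (hRQ u huD huR)
  have hx : IsPGroup p (closure {x, 1 * x * 1⁻¹} : Subgroup G) := h 1
  obtain ⟨P, hP⟩ := hx.exists_le_sylow
  have hxP : x ∈ (P : Subgroup G) := hP (subset_closure (Or.inl rfl))
  refine P.isPGroup'.to_le ?_
  have hall : ∀ z ∈ D, z ∈ (P : Subgroup G) := by
    rintro _ ⟨g, rfl⟩
    refine key (g • P) P _ ⟨g, rfl⟩ ?_
    rw [Sylow.coe_subgroup_smul, mem_pointwise_smul_iff_inv_smul_mem, ← map_inv]
    simpa [mul_assoc] using hxP
  rw [normalClosure, closure_le]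
  intro z hz
  rw [Group.mem_conjugatesOfSet_iff] at hz
  obtain ⟨a, ha, haz⟩ := hz
  rw [Set.mem_singleton_iff] at ha
  subst ha
  obtain ⟨g, hg⟩ := isConj_iff.1 haz
  exact hall z ⟨g, hg.symm⟩

/-- The theorem modulo a normal subgroup. -/
theorem baerSuzuki_mod {G : Type u} [Group G] [Finite G] (N : Subgroup G) [N.Normal] (x : G)
    (h : ¬ ∀ g ∈ normalClosure ({x} : Set G), ∃ m : ℕ, g ^ (2 ^ m) ∈ N) :
    ∃ g : G, ¬ ∀ z ∈ (closure {x, g * x * g⁻¹} : Subgroup G), ∃ m : ℕ, z ^ (2 ^ m) ∈ N := by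
  by_contra hcon
  push Not at hcon
  apply h
  have h1 : IsPGroup 2 (normalClosure {(QuotientGroup.mk' N) x} : Subgroup (G ⧸ N)) := by
    refine baerSuzuki _ fun g => ?_
    obtain ⟨g, rfl⟩ := QuotientGroup.mk'_surjective N g
    have e : (closure {x, g * x * g⁻¹}).map (QuotientGroup.mk' N) =
        closure {(QuotientGroup.mk' N) x, (QuotientGroup.mk' N) g * (QuotientGroup.mk' N) x *
          ((QuotientGroup.mk' N) g)⁻¹} := by
      rw [MonoidHom.map_closure, Set.image_pair, map_mul, map_mul, map_inv]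
    rw [← e]
    rintro ⟨z, hz⟩
    obtain ⟨w, hw, rfl⟩ := mem_map.1 hz
    obtain ⟨m, hm⟩ := hcon g w hw
    refine ⟨m, Subtype.ext ?_⟩
    show (QuotientGroup.mk' N w) ^ 2 ^ m = 1
    rw [← map_pow]
    exact (QuotientGroup.eq_one_iff _).2 hm
  intro g hg
  have h2 : QuotientGroup.mk' N g ∈ (normalClosure {(QuotientGroup.mk' N) x} : Subgroup (G ⧸ N)) := by
    have e : (normalClosure ({x} : Set G)).map (QuotientGroup.mk' N) ≤
        normalClosure {(QuotientGroup.mk' N) x} := by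
      rw [map_le_iff_le_comap]
      refine normalClosure_le_normal ?_
      rintro _ rfl
      exact subset_normalClosure rfl
    exact e (mem_map_of_mem _ hg)
  obtain ⟨m, hm⟩ := h1 ⟨_, h2⟩
  refine ⟨m, ?_⟩
  have h3 := congrArg Subtype.val hm
  have h4 : (QuotientGroup.mk' N g) ^ 2 ^ m = 1 := h3
  rw [← map_pow] at h4
  exact (QuotientGroup.eq_one_iff _).1 h4

end E1adE
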