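import Mathlib

/-! The order of `PSL(2, q)`. -/

set_option autoImplicit false

namespace E1adE

open Subgroup Matrix
open scoped MatrixGroups

variable {F : Type*} [Field F] [Fintype F] [DecidableEq F]

theorem card_SL : Nat.card SL(2, F) * (Fintype.card F - 1) =
    (Fintype.card F ^ 2 - 1) * (Fintype.card F ^ 2 - Fintype.card F) := by
  classical
  have h1 := Matrix.card_GL_field (𝔽 := F) 2
  rw [Fin.prod_univ_two] at h1
  simp only [Fin.val_zero, pow_zero, Fin.val_one, pow_one] at h1
  rw [← h1]
  let f : GL (Fin 2) F →* Fˣ := Matrix.GeneralLinearGroup.det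
  have hsurj : Function.Surjective f := by
    intro u
    refine ⟨Matrix.GeneralLinearGroup.mkOfDetNeZero !![(u : F), 0; 0, 1] (by
      rw [Matrix.det_fin_two_of]
      simp), ?_⟩
    apply Units.ext
    show Matrix.det !![(u : F), 0; 0, 1] = u
    rw [Matrix.det_fin_two_of]
    simp
  have hker : Nat.card f.ker = Nat.card SL(2, F) := by
    symm
    refine Nat.card_congr (Equiv.ofBijective (fun A => ⟨Matrix.SpecialLinearGroup.toGL A, ?_⟩) ⟨?_, ?_⟩)
    · exact Matrix.SpecialLinearGroup.coeToGL_det A
    · intro A B h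
      exact Matrix.SpecialLinearGroup.toGL_injective (congrArg Subtype.val h)
    · rintro ⟨A, hA⟩
      have hdet : Matrix.det (A : Matrix (Fin 2) (Fin 2) F) = 1 := congrArg Units.val hA
      exact ⟨⟨A, hdet⟩, Subtype.ext (Units.ext rfl)⟩
  have h2 := Subgroup.card_mul_index f.ker
  rw [Subgroup.index_ker, MonoidHom.range_eq_top.2 hsurj, hker] at h2
  rw [← h2]
  congr 1
  rw [Subgroup.card_top, Nat.card_eq_fintype_card, Fintype.card_units]

theorem card_center (h2 : (2 : F) ≠ 0) : Nat.card (center SL(2, F)) = 2 := by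
  classical
  have hne : (1 : SL(2, F)) ≠ -1 := by
    intro h
    have h3 := congrArg (fun A : SL(2, F) => (A : Matrix (Fin 2) (Fin 2) F) 0 0) h
    simp at h3
    apply h2
    linear_combination h3
  have e : ((center SL(2, F) : Subgroup SL(2, F)) : Set SL(2, F)) = {1, -1} := by
    ext A
    rw [SetLike.mem_coe, Matrix.SpecialLinearGroup.mem_center_iff, Fintype.card_fin]
    constructor
    · rintro ⟨r, hr, hA⟩
      have h3 : (r - 1) * (r + 1) = 0 := by linear_combination hr
      rcases mul_eq_zero.1 h3 with h | h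
      · left
        have hr1 : r = 1 := by linear_combination h
        apply Subtype.ext
        rw [← hA, hr1, map_one]
        rfl
      · right
        have hr1 : r = -1 := by linear_combination h
        apply Subtype.ext
        rw [← hA, hr1, map_neg, map_one]
        rfl
    · rintro (rfl | rfl)
      · exact ⟨1, by simp, by rw [map_one]; rfl⟩
      · exact ⟨-1, by simp, by rw [map_neg, map_one]; rfl⟩
  have h4 : Nat.card (center SL(2, F)) = ((center SL(2, F) : Subgroup SL(2, F)) : Set SL(2, F)).ncard := rfl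
  rw [h4, e, Set.ncard_pair hne]

theorem card_PSL (h2 : (2 : F) ≠ 0) : Nat.card PSL(2, F) * 2 =
    Fintype.card F * (Fintype.card F - 1) * (Fintype.card F + 1) := by
  have h1 := Subgroup.card_eq_card_quotient_mul_card_subgroup (center SL(2, F))
  rw [card_center h2] at h1
  have h3 := card_SL (F := F)
  have hq : 1 < Fintype.card F := Fintype.one_lt_card
  obtain ⟨m, hm⟩ : ∃ m, Fintype.card F = m + 1 := ⟨Fintype.card F - 1, by omega⟩
  rw [h1] at h3
  have hm0 : 0 < m := by omega
  rw [hm] at h3 ⊢
  have e1 : (m + 1) ^ 2 - 1 = m * (m + 2) := by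
    have : (m + 1) ^ 2 = m * (m + 2) + 1 := by ring
    omega
  have e2 : (m + 1) ^ 2 - (m + 1) = (m + 1) * m := by
    have : (m + 1) ^ 2 = (m + 1) * m + (m + 1) := by ring
    omega
  rw [e1, e2, Nat.add_sub_cancel] at h3
  rw [Nat.add_sub_cancel]
  apply Nat.eq_of_mul_eq_mul_right hm0
  rw [h3]
  ring

end E1adE
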