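import Mathlib

/-! The nilpotency class of the dihedral group of order `2 ^ (n + 1)`. -/

set_option autoImplicit false

namespace E1adE

open Subgroup
open scoped commutatorElement

/-- rotations by multiples of `2 ^ m` -/
def rotMul (n m : ℕ) : Subgroup (DihedralGroup (2 ^ n)) where
  carrier := {g | ∃ i : ZMod (2 ^ n), g = DihedralGroup.r (2 ^ m * i)}
  mul_mem' := by
    rintro _ _ ⟨i, rfl⟩ ⟨j, rfl⟩
    exact ⟨i + j, by rw [DihedralGroup.r_mul_r, mul_add]⟩
  one_mem' := ⟨0, by rw [mul_zero, DihedralGroup.one_def]⟩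
  inv_mem' := by
    rintro _ ⟨i, rfl⟩
    exact ⟨-i, by rw [DihedralGroup.inv_r, mul_neg]⟩

theorem lcs_le_rotMul (n m : ℕ) :
    (⊤ : Subgroup (DihedralGroup (2 ^ n))).lowerCentralSeries (m + 1) ≤ rotMul n (m + 1) := by
  induction m with
  | zero =>
    show ⁅(⊤ : Subgroup (DihedralGroup (2 ^ n))), ⊤⁆ ≤ _
    rw [commutator_le]
    rintro g - h -
    rcases g with i | i <;> rcases h with j | j
    · exact ⟨0, by rw [mul_zero, DihedralGroup.r_zero, commutatorElement_def]; simp⟩
    · exact ⟨i, by simp [commutatorElement_def]; ring⟩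
    · exact ⟨-j, by simp [commutatorElement_def]; ring⟩
    · exact ⟨j - i, by simp [commutatorElement_def]; ring⟩
  | succ m ih =>
    show ⁅(⊤ : Subgroup (DihedralGroup (2 ^ n))).lowerCentralSeries (m + 1), ⊤⁆ ≤ _
    rw [commutator_le]
    rintro g hg h -
    obtain ⟨i, rfl⟩ := ih hg
    rcases h with j | j
    · exact ⟨0, by rw [mul_zero, DihedralGroup.r_zero, commutatorElement_def]; simp⟩
    · exact ⟨i, by simp [commutatorElement_def]; ring⟩

theorem rot_mem_lcs (n m : ℕ) : DihedralGroup.r (2 ^ m : ZMod (2 ^ n)) ∈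
    (⊤ : Subgroup (DihedralGroup (2 ^ n))).lowerCentralSeries m := by
  induction m with
  | zero => exact mem_top _
  | succ m ih =>
    have h := commutator_mem_commutator ih (mem_top (DihedralGroup.sr (0 : ZMod (2 ^ n))))
    have e : ⁅DihedralGroup.r (2 ^ m : ZMod (2 ^ n)), DihedralGroup.sr (0 : ZMod (2 ^ n))⁆ =
        DihedralGroup.r (2 ^ (m + 1) : ZMod (2 ^ n)) := by
      simp [commutatorElement_def]
      ring
    rw [e] at h
    exact h

theorem dihedral_isPGroup (n : ℕ) : IsPGroup 2 (DihedralGroup (2 ^ n)) := by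
  refine IsPGroup.of_card (n := n + 1) ?_
  rw [DihedralGroup.nat_card]
  ring

theorem nilpotencyClass_dihedral {n : ℕ} (hn : 1 ≤ n) :
    Group.nilpotencyClass (DihedralGroup (2 ^ n)) = n := by
  have hfin : Finite (DihedralGroup (2 ^ n)) := by
    apply Nat.finite_of_card_ne_zero
    rw [DihedralGroup.nat_card]
    positivity
  have hnil : Group.IsNilpotent (DihedralGroup (2 ^ n)) := (dihedral_isPGroup n).isNilpotent
  apply le_antisymm
  · rw [← Subgroup.lowerCentralSeries_eq_bot_iff_nilpotencyClass_le, eq_bot_iff]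
    obtain ⟨m, rfl⟩ := Nat.exists_eq_add_of_le' hn
    intro g hg
    obtain ⟨i, rfl⟩ := lcs_le_rotMul (m + 1) m hg
    have h2 : (2 ^ (m + 1) : ZMod (2 ^ (m + 1))) = 0 := by
      have := ZMod.natCast_self (2 ^ (m + 1))
      push_cast at this
      exact this
    rw [h2, zero_mul]
    exact mem_bot.2 DihedralGroup.one_def.symm
  · by_contra hlt
    obtain ⟨m, rfl⟩ := Nat.exists_eq_add_of_le' hn
    have h1 : Group.nilpotencyClass (DihedralGroup (2 ^ (m + 1))) ≤ m := by omega
    rw [← Subgroup.lowerCentralSeries_eq_bot_iff_nilpotencyClass_le] at h1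
    have h2 := rot_mem_lcs (m + 1) m
    rw [h1, mem_bot, DihedralGroup.one_def] at h2
    have h3 : (2 ^ m : ZMod (2 ^ (m + 1))) = 0 := DihedralGroup.r.inj h2
    have h4 : ((2 ^ m : ℕ) : ZMod (2 ^ (m + 1))) = 0 := by
      push_cast
      exact h3
    rw [ZMod.natCast_eq_zero_iff] at h4
    have := Nat.le_of_dvd (by positivity) h4
    have h5 : 2 ^ m < 2 ^ (m + 1) := Nat.pow_lt_pow_right (by norm_num) (by omega)
    omega

/-- Isomorphic groups have the same class. -/
theorem nilpotencyClass_congr {G H : Type*} [Group G] [Group H] [Group.IsNilpotent G]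
    [Group.IsNilpotent H] (e : G ≃* H) : Group.nilpotencyClass G = Group.nilpotencyClass H :=
  le_antisymm (Group.nilpotencyClass_le_of_surjective e.symm.toMonoidHom e.symm.surjective)
    (Group.nilpotencyClass_le_of_surjective e.toMonoidHom e.surjective)

end E1adE
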