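import Mathlib
import Pool.Agent.Lib.MP_1ad17e_al_h59.SecSix
import Pool.Agent.Lib.MP_1ad17e_al_h59.Base
import Pool.Agent.Lib.MP_1ad17e_al_h59.SixTwo

/-! MP_1ad17e_al, sections (6.3), (6.6), with the local theorem `LL`, `k = n`. -/

set_option autoImplicit false

universe u

namespace E1adE

open Subgroup E1adH59
open scoped commutatorElement Pointwise

/-- the local theorem -/
def LL : Prop := ∀ (H : Type u) [Group H] [Finite H] (Q T N : Subgroup H) [Q.Normal] [N.Normal],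
  IsPGroup 2 T → Q ≤ T → ∀ n l : ℕ, 3 ≤ l → T.lowerCentralSeries n = ⊥ → ∀ r ∈ T,
    r ^ (2 ^ l) ∈ Q → (¬ ∀ g ∈ normalClosure {r ^ (2 ^ (l - 1))}, ∃ m : ℕ, g ^ (2 ^ m) ∈ N) →
    ∃ ρ ∈ normalClosure {r ^ (2 ^ (l - 1))}, Odd (orderOf ρ) ∧ ρ ∉ N ∧
      ∀ w ∈ Q, Commute ρ (w ^ (2 ^ (n - l)))

theorem sec6 (hLL : LL.{u}) {K : Type u} [Group K] [Finite K] (F : Set K)
    (hF : ∀ y ∈ F, ∀ g : K, g * y * g⁻¹ ∈ F) (hcomm : ∀ y ∈ F, ∀ y' ∈ F, y * y' = y' * y)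
    (P : Sylow 2 K) {k : ℕ} (hP : (P : Subgroup K).lowerCentralSeries k = ⊥)
    (hroot : ∀ y ∈ F, ∃ r : K, r ^ (2 ^ k) = y ∧ ∃ T : Sylow 2 K, r ∈ (T : Subgroup K))
    {y0 : K} (hy0 : y0 ∈ F) :
    ∃ T : Sylow 2 K, ∃ r ∈ (T : Subgroup K), r ^ (2 ^ k) = y0 ∧
      r ^ (2 ^ 2) ∈ (P : Subgroup K) := by
  classical
  by_contra hcon
  let CV : Subgroup K := centralizer F
  have hCV : CV.Normal := by
    refine ⟨fun c hc g => ?_⟩
    rw [mem_centralizer_iff] at hc ⊢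
    intro y hy
    have h1 := hc (g⁻¹ * y * g) (by
      have := hF y hy g⁻¹
      rwa [inv_inv] at this)
    calc y * (g * c * g⁻¹) = g * ((g⁻¹ * y * g) * c) * g⁻¹ := by group
      _ = g * (c * (g⁻¹ * y * g)) * g⁻¹ := by rw [h1]
      _ = g * c * g⁻¹ * y := by group
  let O : Subgroup K := OO CV P
  have hOn : O.Normal := OO_normal CV P
  let Q : Subgroup K := (P : Subgroup K) ⊓ O
  let K1 : Subgroup K := normalizer (Q : Set K)
  -- roots in good position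
  let Rt : K → K → Prop := fun y r => r ^ (2 ^ k) = y ∧
    ∃ T : Sylow 2 K, r ∈ (T : Subgroup K) ∧ (T : Subgroup K) ⊓ O = Q
  have hRt : ∀ y ∈ F, ∃ r, Rt y r := by
    intro y hy
    obtain ⟨r, hr, T, hrT⟩ := hroot y hy
    obtain ⟨c, hc, h⟩ := claimA CV P T
    refine ⟨c⁻¹ * r * c, ?_, c⁻¹ • T, ?_, ?_⟩
    · have e : (c⁻¹ * r * c) ^ (2 ^ k) = c⁻¹ * r ^ (2 ^ k) * c := by
        have := conj_pow (i := 2 ^ k) (a := c⁻¹) (b := r)
        rwa [inv_inv] at this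
      rw [e, hr]
      have h1 := (mem_centralizer_iff.1 hc) y hy
      rw [mul_assoc, h1]
      group
    · rw [Sylow.coe_subgroup_smul, mem_pointwise_smul_iff_inv_smul_mem, ← map_inv, inv_inv]
      have e : MulAut.conj c • (c⁻¹ * r * c) = r := by
        simp [mul_assoc]
      rw [e]
      exact hrT
    · ext x
      have e : x ∈ ((c⁻¹ • T : Sylow 2 K) : Subgroup K) ⊓ O ↔
          c * x * c⁻¹ ∈ (T : Subgroup K) ⊓ O := by
        rw [mem_inf, mem_inf, Sylow.coe_subgroup_smul, mem_pointwise_smul_iff_inv_smul_mem, ← map_inv,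
          inv_inv]
        have e1 : MulAut.conj c • x = c * x * c⁻¹ := by simp
        rw [e1]
        have e2 : x ∈ O ↔ c * x * c⁻¹ ∈ O := by
          constructor
          · exact fun hx => hOn.conj_mem x hx c
          · intro hx
            have := hOn.conj_mem _ hx c⁻¹
            have e : c⁻¹ * (c * x * c⁻¹) * c⁻¹⁻¹ = x := by group
            rwa [e] at this
        rw [e2]
      rw [e, h]
      have e3 : c⁻¹ * (c * x * c⁻¹) * c = x := by group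
      rw [e3]
  have hFQ : ∀ y ∈ F, ∀ r, Rt y r → y ∈ Q := by
    rintro y hy r ⟨hr, T, hrT, hT⟩
    rw [← hT, mem_inf]
    refine ⟨hr ▸ pow_mem hrT _, le_OO CV P ?_⟩
    show y ∈ centralizer F
    rw [mem_centralizer_iff]
    intro y' hy'
    exact hcomm y' hy' y hy
  -- the number l
  have hex : ∃ l : ℕ, ∀ y ∈ F, ∃ r, Rt y r ∧ r ^ (2 ^ l) ∈ Q := by
    refine ⟨k, fun y hy => ?_⟩
    obtain ⟨r, hr⟩ := hRt y hy
    refine ⟨r, hr, ?_⟩
    rw [hr.1]
    exact hFQ y hy r hr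
  have hlk : Nat.find hex ≤ k := by
    refine Nat.find_min' hex fun y hy => ?_
    obtain ⟨r, hr⟩ := hRt y hy
    refine ⟨r, hr, ?_⟩
    rw [hr.1]
    exact hFQ y hy r hr
  obtain ⟨l, hl⟩ : ∃ l, l = Nat.find hex := ⟨_, rfl⟩
  have hlspec : ∀ y ∈ F, ∃ r, Rt y r ∧ r ^ (2 ^ l) ∈ Q := by
    rw [hl]
    exact Nat.find_spec hex
  rw [← hl] at hlk
  have hlC : 3 ≤ l := by
    by_contra hlt
    obtain ⟨r, ⟨hr, T, hrT, hT⟩, hrl⟩ := hlspec y0 hy0
    refine hcon ⟨T, r, hrT, hr, ?_⟩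
    have e : r ^ (2 ^ 2) = (r ^ (2 ^ l)) ^ (2 ^ (2 - l)) := by
      rw [← pow_mul, ← pow_add]
      congr 2
      omega
    rw [e]
    exact pow_mem (mem_inf.1 hrl).1 _
  -- a bad root
  obtain ⟨y1, hy1, hbad⟩ : ∃ y ∈ F, ∀ r, Rt y r → r ^ (2 ^ (l - 1)) ∉ Q := by
    have h1 : ¬ ∀ y ∈ F, ∃ r, Rt y r ∧ r ^ (2 ^ (l - 1)) ∈ Q :=
      Nat.find_min hex (m := l - 1) (by omega)
    push Not at h1
    exact h1
  obtain ⟨r1, hr1, hr1l⟩ := hlspec y1 hy1
  have hx := hbad r1 hr1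
  obtain ⟨hr1y, T1, hr1T, hT1⟩ := hr1
  have hT1K : (T1 : Subgroup K) ≤ K1 := by
    intro t ht
    show t ∈ normalizer (Q : Set K)
    rw [← hT1, mem_normalizer_iff]
    intro q
    rw [mem_inf, mem_inf]
    constructor
    · rintro ⟨h1, h2⟩
      exact ⟨mul_mem (mul_mem ht h1) (inv_mem ht), hOn.conj_mem _ h2 _⟩
    · rintro ⟨h1, h2⟩
      have e : q = t⁻¹ * (t * q * t⁻¹) * t := by group
      refine ⟨?_, ?_⟩
      · rw [e]
        exact mul_mem (mul_mem (inv_mem ht) h1) ht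
      · have := hOn.conj_mem _ h2 t⁻¹
        rwa [inv_inv, ← e] at this
  have hQT1 : Q ≤ (T1 : Subgroup K) := by
    rw [← hT1]
    exact inf_le_left
  have hQK1 : Q ≤ K1 := le_normalizer
  let rr : K1 := ⟨r1, hT1K hr1T⟩
  let Q1 : Subgroup K1 := Q.subgroupOf K1
  have hQ1 : Q1.Normal := normal_in_normalizer
  let TT : Subgroup K1 := (T1 : Subgroup K).subgroupOf K1
  have hTT : IsPGroup 2 TT := T1.isPGroup'.comap_of_injective K1.subtype K1.subtype_injective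
  have hQTT : Q1 ≤ TT := fun z hz => hQT1 hz
  have hTTn : TT.lowerCentralSeries k = ⊥ := by
    have e1 : TT.map K1.subtype = (T1 : Subgroup K) := by
      rw [subgroupOf_map_subtype]
      exact inf_eq_left.2 hT1K
    have e2 : (TT.lowerCentralSeries k).map K1.subtype = ⊥ := by
      rw [map_lowerCentralSeries, e1]
      exact sylow_lcs P T1 hP
    exact (map_eq_bot_iff_of_injective _ K1.subtype_injective).1 e2
  have hrrT : rr ∈ TT := hr1T
  have hrrl : rr ^ (2 ^ l) ∈ Q1 := hr1l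
  let N1 : Subgroup K1 := CV.subgroupOf K1
  let L : Subgroup K1 := normalClosure {rr ^ (2 ^ (l - 1))}
  have hLn : L.Normal := inferInstance
  -- `L` is a 2-group modulo `CV`
  have h2 : ∀ g ∈ L, ∃ m : ℕ, g ^ (2 ^ m) ∈ N1 := by
    by_contra hno
    obtain ⟨ρ, hρL, hρo, hρN, hρc⟩ := hLL K1 Q1 TT N1 hTT hQTT k l hlC hTTn rr hrrT hrrl hno
    apply hρN
    show (ρ : K) ∈ centralizer F
    rw [mem_centralizer_iff]
    intro y hy
    obtain ⟨r, hr, hrl⟩ := hlspec y hy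
    have hw : (⟨r ^ (2 ^ l), hQK1 hrl⟩ : K1) ∈ Q1 := hrl
    have h1 := (hρc _ hw).eq
    have h3 := congrArg (Subtype.val) h1
    simp only [Subgroup.coe_mul, SubmonoidClass.coe_pow] at h3
    have e : (r ^ (2 ^ l)) ^ (2 ^ (k - l)) = y := by
      rw [← hr.1, ← pow_mul, ← pow_add]
      congr 2
      omega
    rw [e] at h3
    exact h3.symm
  have hLO : L.map K1.subtype ≤ OO CV P := by
    refine le_OO_of CV P _ ?_ ?_
    · rintro _ ⟨g, hg, rfl⟩
      obtain ⟨m, hm⟩ := h2 g hg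
      exact ⟨m, hm⟩
    · refine ⟨?_⟩
      rintro _ ⟨_, ⟨g, hg, rfl⟩, rfl⟩ z
      obtain ⟨z, rfl⟩ := QuotientGroup.mk'_surjective CV z
      obtain ⟨c, hc, ν, hν, rfl⟩ := claimA' CV P z
      have e1 : QuotientGroup.mk' CV (c * ν) = QuotientGroup.mk' CV ν := by
        rw [map_mul]
        have : QuotientGroup.mk' CV c = 1 := (QuotientGroup.eq_one_iff c).2 hc
        rw [this, one_mul]
      rw [e1]
      refine ⟨K1.subtype ((⟨ν, hν⟩ : K1) * g * (⟨ν, hν⟩ : K1)⁻¹), ?_, ?_⟩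
      · exact mem_map_of_mem _ (hLn.conj_mem g hg _)
      · simp
  apply hx
  rw [← hT1, mem_inf]
  refine ⟨pow_mem hr1T _, hLO ?_⟩
  exact ⟨rr ^ (2 ^ (l - 1)), subset_normalClosure rfl, rfl⟩


variable {G : Type u} [Group G] [Finite G]

/-- (6.1), (6.3)-(6.6) -/
theorem sec6G (hLL : LL.{u}) (P : Sylow 2 G) {k : ℕ} (hP : (P : Subgroup G).lowerCentralSeries k = ⊥)
    {y : G} (hyP : y ∈ (P : Subgroup G)) (hy : y * y = 1)
    (hyr : ∃ r : G, r ^ (2 ^ k) = y) (hyc : ∀ v ∈ (P : Subgroup G), v * v = 1 → y * v = v * y) :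
    ∃ T : Sylow 2 G, Om (T : Subgroup G) = Om (P : Subgroup G) ∧ ∃ r ∈ (T : Subgroup G),
      r ^ (2 ^ k) = y ∧ r ^ (2 ^ 2) ∈ (P : Subgroup G) := by
  let K : Subgroup G := normalizer (Om (P : Subgroup G) : Set G)
  have hPK : (P : Subgroup G) ≤ K := (le_normalizer).trans (normalizer_le_Om _)
  let PK : Sylow 2 K := P.subtype hPK
  let F : Set K := {z | (z : G) ∈ Om (P : Subgroup G) ∧ (z : G) * z = 1 ∧
    (∃ r : G, r ^ (2 ^ k) = z) ∧ ∀ v ∈ Om (P : Subgroup G), (z : G) * v = v * z}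
  have hconj : ∀ g : K, ∀ v : G, v ∈ Om (P : Subgroup G) ↔ (g : G) * v * (g : G)⁻¹ ∈ Om (P : Subgroup G) :=
    fun g v => mem_normalizer_iff.1 g.2 v
  have hF : ∀ z ∈ F, ∀ g : K, g * z * g⁻¹ ∈ F := by
    rintro z ⟨h1, h2, ⟨r, h3⟩, h4⟩ g
    have e0 : ((g * z * g⁻¹ : K) : G) = (g : G) * z * (g : G)⁻¹ := rfl
    refine ⟨?_, ?_, ⟨g * r * (g : G)⁻¹, ?_⟩, ?_⟩
    · rw [e0, ← hconj]
      exact h1
    · rw [e0]
      calc (g : G) * z * (g : G)⁻¹ * ((g : G) * z * (g : G)⁻¹) = g * (z * z) * (g : G)⁻¹ := by group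
        _ = 1 := by rw [h2]; group
    · rw [conj_pow, h3, e0]
    · intro v hv
      have h5 : (g : G)⁻¹ * v * g ∈ Om (P : Subgroup G) := by
        rw [hconj g]
        have e : (g : G) * ((g : G)⁻¹ * v * g) * (g : G)⁻¹ = v := by group
        rwa [e]
      have h6 := h4 _ h5
      rw [e0]
      calc (g : G) * z * (g : G)⁻¹ * v = g * (z * ((g : G)⁻¹ * v * g)) * (g : G)⁻¹ := by group
        _ = g * (((g : G)⁻¹ * v * g) * z) * (g : G)⁻¹ := by rw [h6]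
        _ = v * (g * z * (g : G)⁻¹) := by group
  have hcomm : ∀ z ∈ F, ∀ z' ∈ F, z * z' = z' * z := by
    rintro z ⟨_, _, _, h4⟩ z' ⟨h1, _, _, _⟩
    exact Subtype.ext (h4 _ h1)
  have hPKn : (PK : Subgroup K).lowerCentralSeries k = ⊥ := by
    have e1 : (PK : Subgroup K).map K.subtype = (P : Subgroup G) := by
      rw [Sylow.coe_subtype, subgroupOf_map_subtype]
      exact inf_eq_left.2 hPK
    have e2 : ((PK : Subgroup K).lowerCentralSeries k).map K.subtype = ⊥ := by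
      rw [map_lowerCentralSeries, e1]
      exact hP
    exact (map_eq_bot_iff_of_injective _ K.subtype_injective).1 e2
  have hOmP : IsPGroup 2 (Om (P : Subgroup G)) := P.isPGroup'.to_le (Om_le _)
  have hroot : ∀ z ∈ F, ∃ r : K, r ^ (2 ^ k) = z ∧ ∃ T : Sylow 2 K, r ∈ (T : Subgroup K) := by
    rintro z ⟨h1, h2, ⟨r, h3⟩, h4⟩
    obtain ⟨T, hT, r', hr', hr'z⟩ := exists_root h2 h3 (Om (P : Subgroup G)) hOmP
      (fun x hx => (h4 x hx).symm)
    have hTK : (T : Subgroup G) ≤ K := by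
      have h5 : (T : Subgroup G) ≤ normalizer (Om (T : Subgroup G) : Set G) :=
        (le_normalizer).trans (normalizer_le_Om _)
      rwa [Om_eq_of_le hT] at h5
    refine ⟨⟨r', hTK hr'⟩, Subtype.ext hr'z, T.subtype hTK, ?_⟩
    exact hr'
  have hyO : y ∈ Om (P : Subgroup G) := mem_Om hyP hy
  have hyF : (⟨y, hPK hyP⟩ : K) ∈ F := ⟨hyO, hy, hyr, commute_Om hyc⟩
  obtain ⟨TK, r, hrT, hr, hrP⟩ := sec6 hLL F hF hcomm PK hPKn hroot hyF
  obtain ⟨g, rfl⟩ := MulAction.exists_smul_eq K PK TK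
  refine ⟨(g : G) • P, ?_, r, ?_, congrArg Subtype.val hr, hrP⟩
  · rw [Sylow.coe_subgroup_smul, Om_smul]
    exact mem_normalizer_iff_smul.1 g.2
  · rw [Sylow.coe_subgroup_smul, mem_pointwise_smul_iff_inv_smul_mem] at hrT ⊢
    have e1 : ((MulAut.conj (g : G))⁻¹ • (r : G)) = (((MulAut.conj g)⁻¹ • r : K) : G) := by
      rw [← map_inv, ← map_inv]
      simp
    rw [e1]
    exact hrT

end E1adE
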