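import Mathlib
import Pool.Agent.Lib.MP_1ad17e_al_E.SecSix
import Pool.Agent.Lib.MP_1ad17e_al_P.Main

/-!
MP_1ad17e_al: the commutation theorem with `k = n`, from the local theorem `LL`.
-/

set_option autoImplicit false

universe u

namespace E1adE

open Subgroup E1adH4 E1adH58 E1adH59 E1adP
open scoped commutatorElement

variable {G : Type u} [Group G] [Finite G]

/-- (6.2) -/
theorem sec62 (hLL : LL.{u}) (P : Sylow 2 G) (D : Subgroup G) (hDP : D ≤ P) (hnP : ¬ (P : Subgroup G) ≤ D)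
    {k : ℕ} (hP : (P : Subgroup G).lowerCentralSeries k = ⊥) {y : G} (hyD : y ∈ D) (hy : y * y = 1) (hyr : ∃ r : G, r ^ (2 ^ k) = y)
    (hyc : ∀ v ∈ (P : Subgroup G), v * v = 1 → y * v = v * y)
    (h36 : ∀ g ∈ (P : Subgroup G), g ∉ D → (∀ z ∈ D, g * z * g⁻¹ ∈ D) → g * g ∈ D →
      ∃ v : G, v * v = 1 ∧ ∃ z ∈ D, v = g * z)
    (hA : ∀ j, ¬ lamS (P : Subgroup G) j ≤ D → lamS (P : Subgroup G) (j + 1) ≤ D →
      ∀ d ∈ D, ∀ m, d ^ (2 ^ m) = y → m + j + 3 ≤ k) : False := by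
  obtain ⟨T, hT, r, hrT, hr, hrP⟩ := sec6G hLL P hP (hDP hyD) hy hyr hyc
  obtain ⟨j, hj1, hj2⟩ := exists_last P.isPGroup' hnP
  rcases Nat.lt_or_ge (2 + j) k with hlt | hge
  swap
  · have := hA j hj1 hj2 y hyD 0 (by rw [pow_zero, pow_one])
    omega
  obtain ⟨g, hg⟩ : ∃ g, g = r ^ (2 ^ (2 + j)) := ⟨_, rfl⟩
  obtain ⟨m, hm⟩ : ∃ m, 2 + j + m = k := ⟨k - (2 + j), by omega⟩
  have hgm : g ^ (2 ^ m) = y := by
    rw [hg, ← pow_mul, ← pow_add, hm, hr]
  have hgl : g ∈ lamS (P : Subgroup G) j := by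
    have h1 := lamS_pow (S := (P : Subgroup G)) (i := 0) hrP j
    rw [Nat.zero_add, ← pow_mul, ← pow_add] at h1
    rw [hg]
    exact h1
  have hgP : g ∈ (P : Subgroup G) := lamS_le _ _ hgl
  by_cases hgD : g ∈ D
  · have := hA j hj1 hj2 g hgD m hgm
    omega
  have hgn : ∀ z ∈ D, g * z * g⁻¹ ∈ D := by
    intro z hz
    have e : g * z * g⁻¹ = ⁅g, z⁆ * z := by
      rw [commutatorElement_def]
      group
    rw [e]
    exact mul_mem (hj2 (lamS_comm hgl (hDP hz))) hz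
  obtain ⟨v, hv, z, hz, hvz⟩ := h36 g hgP hgD hgn (hj2 (lamS_sq hgl))
  have hvP : v ∈ (P : Subgroup G) := by
    rw [hvz]
    exact mul_mem hgP (hDP hz)
  have hvT : v ∈ (T : Subgroup G) := by
    have h1 := mem_Om hvP hv
    rw [← hT] at h1
    exact Om_le _ h1
  have hTn : (T : Subgroup G).lowerCentralSeries k = ⊥ := sylow_lcs P T hP
  have hd : g * v ∈ D := by
    rw [hvz, ← mul_assoc]
    exact mul_mem (hj2 (lamS_sq hgl)) hz
  have hdm : (g * v) ^ (2 ^ m) = y := by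
    rw [hg, rootImp' hTn hrT hvT hv (2 + j) m (by omega) (by omega), hm, hr]
  have := hA j hj1 hj2 (g * v) hd m hdm
  omega


/-- (6.2), (6.6): there is no core. -/
theorem no_core (hLL : LL.{u}) {k : ℕ} (hcl : Cls G k)
    {W D : Subgroup G} {y0 : G} (hW : Bad k W) (hC : Core k W D y0)
    (hA : ∀ T : Subgroup G, IsPGroup 2 T → D ≤ T → ∀ a m : ℕ, ¬ lamS T a ≤ D → lamS T (a + 1) ≤ D →
      ∀ d ∈ D, d ^ (2 ^ m) = y0 → k ≤ m + (a + 1) + 1 → False) : False := by
  obtain ⟨U, hU, hDU, hyU⟩ := hC.hU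
  obtain ⟨T, hT, hUT⟩ := exists_maxTwo hU.2.1 (N := (⊤ : Subgroup G)) le_top
  have hDT : D ≤ T := hDU.trans hUT
  have hTD : ¬ T ≤ D := by
    intro h
    apply s2_2 hW hT
    rw [le_antisymm h hDT]
    exact hC.hOm
  obtain ⟨P, hP⟩ := exists_sylow_of_maxTwo hT
  have hPn : (P : Subgroup G).lowerCentralSeries k = ⊥ := hcl _ P.isPGroup'
  have hyc : Cent y0 T := (s2_4b hW hU hT hUT hyU.1).1 hyU
  have hyYY := hC.hy0.1
  have hyD : y0 ∈ D := hC.hWD hC.hy0.2.1
  refine sec62 hLL P D (by rw [hP]; exact hDT) (by rw [hP]; exact hTD) hPn hyD hyYY.1 hyYY.2.2 ?_ ?_ ?_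
  · rw [hP]
    exact hyc
  · intro g hgP hgD hgn hgg
    have hgN : g ∈ normalizer (D : Set G) := E1adH58.mem_normalizer_of hgn
    obtain ⟨d, hd, hgd⟩ := hC.h36 g hgN hgD hgg
    exact ⟨g * d, hgd.1, d, hd, rfl⟩
  · intro a ha ha' d hd m hdm
    by_contra hlt
    exact hA P P.isPGroup' (by rw [hP]; exact hDT) a m ha ha' d hd hdm (by omega)


/-- there is no bad pair -/
theorem no_bad (hLL : LL.{u}) {k : ℕ} (hcl : Cls G k)
    {W : Subgroup G} (hW : Bad k W) : False := by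
  have hnk : k ≤ k := le_rfl
  obtain ⟨D, y0, hC⟩ := s3 hcl hnk hW
  have hDc : IsPGroup 2 (D ⊓ centralizer {y0} : Subgroup G) := hC.hD.to_le inf_le_left
  have hOm : Om (D ⊓ centralizer {y0}) = W := by
    apply le_antisymm
    · have := Om_mono (inf_le_left : D ⊓ centralizer {y0} ≤ D)
      rwa [hC.hOm] at this
    · have h1 : W ≤ D ⊓ centralizer {y0} := by
        intro w hw
        exact mem_inf.2 ⟨hC.hWD hw, mem_centralizer_singleton_iff.2 (hC.hy0.2.2 w hw).symm⟩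
      have h2 := Om_mono h1
      rwa [bad_om hW] at h2
  have hX := lemmaX' hcl hnk hW hC.hy0 hDc
    (fun x hx => mem_centralizer_singleton_iff.1 hx.2) hOm hC.hM4
  exact no_core hLL hcl hW hC (fun T hT hDT a m ha ha' d hd hdm hnm =>
    thmA_of hcl hC hX hT hDT ha ha' hd hdm hnm)

/-- the commutation theorem -/
theorem commute_all (hLL : LL.{u}) {k : ℕ} (hcl : Cls G k)
    {y r b : G} (hy : y * y = 1) (hr : r ^ (2 ^ k) = y) (hb : b * b = 1) {P : Subgroup G}
    (hP : IsPGroup 2 P) (hyP : y ∈ P) (hbP : b ∈ P) : y * b = b * y := by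
  by_cases hy1 : y = 1
  · rw [hy1, one_mul, mul_one]
  obtain ⟨T, hT, hPT⟩ := exists_maxTwo hP (N := (⊤ : Subgroup G)) le_top
  by_contra hne
  obtain ⟨W, hW⟩ := exists_bad (k := k) (G := G)
    ⟨T, y, hT, ⟨hy, hy1, r, hr⟩, hPT hyP, fun h => hne (h b (hPT hbP) hb)⟩
  exact no_bad hLL hcl hW

/-- the same with helper4's `Good` -/
theorem good (hLL : LL.{u}) {n : ℕ} (T : Sylow 2 G)
    (hT : Group.nilpotencyClass (T : Subgroup G) ≤ n) : Good G n := by
  have hcl : Cls G n := by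
    intro S hS
    obtain ⟨P, hP⟩ := hS.exists_le_sylow
    have hTn : (T : Subgroup G).lowerCentralSeries n = ⊥ := by
      have hnil : Group.IsNilpotent (T : Subgroup G) := T.isPGroup'.isNilpotent
      have h1 : (⊤ : Subgroup (T : Subgroup G)).lowerCentralSeries n = ⊥ :=
        Subgroup.lowerCentralSeries_eq_bot_iff_nilpotencyClass_le.2 hT
      have h2 := Subgroup.top_subtype_lowerCentralSeries (T : Subgroup G) n
      rw [← h2, h1, Subgroup.map_bot]
    have hPn := sylow_lcs T P hTn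
    have hmono : ∀ m, S.lowerCentralSeries m ≤ (P : Subgroup G).lowerCentralSeries m := by
      intro m
      induction m with
      | zero => exact hP
      | succ m ih => exact Subgroup.commutator_mono ih hP
    have := hmono n
    rw [hPn] at this
    exact le_bot_iff.1 this
  intro y r b hy hr hb P hP hyP hbP
  exact commute_all hLL hcl hy hr hb hP hyP hbP

end E1adE
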