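import Pool.Agent.Lib.MP_1ad17e_al_E.CardPSL
import Pool.Agent.Lib.MP_1ad17e_al_E.Dihedral
import Pool.Agent.Lib.MP_1ad17e_al_h4.Strong

/-! The group `PSL(2, q)`, `q ≡ 1 + 2 ^ (n + 1)` modulo `2 ^ (n + 2)`: its Sylow 2-subgroup is dihedral
of order `2 ^ (n + 1)`. -/

set_option autoImplicit false

namespace E1adE

open Subgroup Matrix
open scoped MatrixGroups

section hom

variable {G : Type*} [Group G]

/-- A homomorphism from a dihedral group. -/
def dihHom {N : ℕ} [NeZero N] (d w : G) (hd : d ^ N = 1) (hw : w * w = 1)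
    (hwd : w * d * w⁻¹ = d⁻¹) : DihedralGroup N →* G where
  toFun x := match x with
    | DihedralGroup.r i => d ^ i.val
    | DihedralGroup.sr i => w * d ^ i.val
  map_one' := by
    show d ^ (0 : ZMod N).val = 1
    rw [ZMod.val_zero, pow_zero]
  map_mul' := by
    have hadd : ∀ i j : ZMod N, d ^ (i + j).val = d ^ i.val * d ^ j.val := by
      intro i j
      rw [ZMod.val_add, ← pow_eq_pow_mod _ hd, pow_add]
    have hneg : ∀ i : ZMod N, d ^ (-i).val = (d ^ i.val)⁻¹ := by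
      intro i
      rw [eq_inv_iff_mul_eq_one, ← hadd, neg_add_cancel, ZMod.val_zero, pow_zero]
    have hsub : ∀ i j : ZMod N, d ^ (j - i).val = (d ^ i.val)⁻¹ * d ^ j.val := by
      intro i j
      rw [sub_eq_neg_add, hadd, hneg]
    have hwi : w⁻¹ = w := inv_eq_of_mul_eq_one_left hw
    have hwp : ∀ k : ℕ, d ^ k * w = w * (d ^ k)⁻¹ := by
      intro k
      have h1 : w * d ^ k * w⁻¹ = (d ^ k)⁻¹ := by
        rw [← conj_pow, hwd, inv_pow]
      have h2 : w * (d ^ k)⁻¹ * w⁻¹ = d ^ k := by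
        rw [← h1]
        have e : w * (w * d ^ k * w⁻¹) * w⁻¹ = (w * w) * d ^ k * (w * w)⁻¹ := by group
        rw [e, hw]
        group
      calc d ^ k * w = w * (d ^ k)⁻¹ * w⁻¹ * w := by rw [h2]
        _ = w * (d ^ k)⁻¹ := by group
    rintro (i | i) (j | j)
    · show d ^ (i + j).val = d ^ i.val * d ^ j.val
      exact hadd i j
    · show w * d ^ (j - i).val = d ^ i.val * (w * d ^ j.val)
      rw [hsub, ← mul_assoc, ← mul_assoc, hwp]
    · show w * d ^ (i + j).val = w * d ^ i.val * d ^ j.val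
      rw [hadd, mul_assoc]
    · show d ^ (j - i).val = w * d ^ i.val * (w * d ^ j.val)
      rw [hsub, ← mul_assoc, mul_assoc w, hwp, ← mul_assoc, hw, one_mul]

theorem dihHom_r {N : ℕ} [NeZero N] (d w : G) (hd : d ^ N = 1) (hw : w * w = 1)
    (hwd : w * d * w⁻¹ = d⁻¹) (i : ZMod N) : dihHom d w hd hw hwd (DihedralGroup.r i) = d ^ i.val := rfl

theorem dihHom_sr {N : ℕ} [NeZero N] (d w : G) (hd : d ^ N = 1) (hw : w * w = 1)
    (hwd : w * d * w⁻¹ = d⁻¹) (i : ZMod N) :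
    dihHom d w hd hw hwd (DihedralGroup.sr i) = w * d ^ i.val := rfl

theorem dihHom_injective {N : ℕ} [NeZero N] (d w : G) (hd : d ^ N = 1) (hw : w * w = 1)
    (hwd : w * d * w⁻¹ = d⁻¹) (ho : orderOf d = N) (hne : ∀ k : ℕ, w * d ^ k ≠ 1) :
    Function.Injective (dihHom d w hd hw hwd) := by
  rw [injective_iff_map_eq_one]
  rintro (i | i) h
  · rw [dihHom_r] at h
    have h1 := orderOf_dvd_of_pow_eq_one h
    rw [ho] at h1
    have h2 : i.val = 0 := Nat.eq_zero_of_dvd_of_lt h1 (ZMod.val_lt i)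
    have h3 : i = 0 := (ZMod.val_eq_zero i).1 h2
    rw [h3]
    rfl
  · rw [dihHom_sr] at h
    exact absurd h (hne _)

end hom

section matrices

variable {F : Type*} [Field F]

/-- a matrix of determinant one -/
def sl (a b c d : F) (h : a * d - b * c = 1) : SL(2, F) :=
  ⟨!![a, b; c, d], by rw [Matrix.det_fin_two_of]; exact h⟩

theorem sl_coe (a b c d : F) (h : a * d - b * c = 1) :
    ((sl a b c d h : SL(2, F)) : Matrix (Fin 2) (Fin 2) F) = !![a, b; c, d] := rfl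

/-- `diag(a, a⁻¹)` -/
def diagM : Fˣ →* SL(2, F) where
  toFun a := sl (a : F) 0 0 ((a⁻¹ : Fˣ) : F) (by simp)
  map_one' := by
    apply Subtype.ext
    rw [sl_coe]
    ext i j
    fin_cases i <;> fin_cases j <;> simp
  map_mul' a b := by
    apply Subtype.ext
    rw [Matrix.SpecialLinearGroup.coe_mul, sl_coe, sl_coe, sl_coe, Matrix.mul_fin_two]
    simp [mul_comm]

/-- the matrix with antidiagonal entries `b`, `-b⁻¹` -/
def antiM (b : Fˣ) : SL(2, F) := sl 0 (b : F) (-((b⁻¹ : Fˣ) : F)) 0 (by simp)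

theorem diagM_coe (a : Fˣ) : ((diagM a : SL(2, F)) : Matrix (Fin 2) (Fin 2) F) =
    !![(a : F), 0; 0, ((a⁻¹ : Fˣ) : F)] := rfl

theorem antiM_coe (b : Fˣ) : ((antiM b : SL(2, F)) : Matrix (Fin 2) (Fin 2) F) =
    !![0, (b : F); -((b⁻¹ : Fˣ) : F), 0] := rfl

theorem anti_mul_diag (a : Fˣ) : antiM (1 : Fˣ) * diagM a = antiM a⁻¹ := by
  apply Subtype.ext
  rw [Matrix.SpecialLinearGroup.coe_mul, antiM_coe, antiM_coe, diagM_coe, Matrix.mul_fin_two]
  simp

theorem diag_mul_anti (a : Fˣ) : diagM a⁻¹ * antiM (1 : Fˣ) = antiM a⁻¹ := by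
  apply Subtype.ext
  rw [Matrix.SpecialLinearGroup.coe_mul, antiM_coe, antiM_coe, diagM_coe, Matrix.mul_fin_two]
  simp

theorem anti_sq (b : Fˣ) : antiM b * antiM b = -1 := by
  apply Subtype.ext
  rw [Matrix.SpecialLinearGroup.coe_mul, antiM_coe, Matrix.mul_fin_two]
  ext i j
  fin_cases i <;> fin_cases j <;> simp

theorem neg_one_mem_center : (-1 : SL(2, F)) ∈ center SL(2, F) := by
  rw [Matrix.SpecialLinearGroup.mem_center_iff, Fintype.card_fin]
  exact ⟨-1, by simp, by rw [map_neg, map_one]; rfl⟩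

theorem diag_mem_center {a : Fˣ} : diagM a ∈ center SL(2, F) ↔ a * a = 1 := by
  rw [Matrix.SpecialLinearGroup.mem_center_iff, Fintype.card_fin]
  constructor
  · rintro ⟨r, hr, h⟩
    rw [diagM_coe] at h
    have h0 := congrArg (fun A : Matrix (Fin 2) (Fin 2) F => A 0 0) h
    have h1 : r = a := by simpa using h0
    apply Units.ext
    rw [Units.val_mul, ← h1, Units.val_one, ← pow_two, hr]
  · intro h
    refine ⟨a, ?_, ?_⟩
    · rw [pow_two, ← Units.val_mul, h, Units.val_one]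
    · have h1 : a⁻¹ = a := inv_eq_of_mul_eq_one_left h
      rw [diagM_coe, h1]
      ext i j
      fin_cases i <;> fin_cases j <;> simp

theorem anti_notMem_center (b : Fˣ) : antiM b ∉ center SL(2, F) := by
  rw [Matrix.SpecialLinearGroup.mem_center_iff]
  rintro ⟨r, -, h⟩
  rw [antiM_coe] at h
  have h0 := congrArg (fun A : Matrix (Fin 2) (Fin 2) F => A 0 1) h
  have h1 : (0 : F) = b := by simpa using h0
  exact b.ne_zero h1.symm

theorem conj_anti (h2 : (2 : F) ≠ 0) (b ι : Fˣ) (hι : ι * ι = -1) :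
    ∃ P : SL(2, F), P * diagM ι * P⁻¹ = antiM b := by
  have hι' : (ι : F) * ι = -1 := by
    have := congrArg Units.val hι
    simpa using this
  have hinv : ((ι⁻¹ : Fˣ) : F) = -ι := by
    have h : (ι : F) * (-ι) = 1 := by linear_combination -hι'
    rw [Units.val_inv_eq_inv_val]
    exact inv_eq_of_mul_eq_one_right h
  have hb := b.ne_zero
  have hi := ι.ne_zero
  have hdet : (b : F) * (2 * (b : F))⁻¹ - -(2 * (ι : F))⁻¹ * (ι : F) = 1 := by
    field_simp
    norm_num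
  refine ⟨sl (b : F) (-(2 * (ι : F))⁻¹) (ι : F) ((2 * (b : F))⁻¹) hdet, ?_⟩
  · rw [mul_inv_eq_iff_eq_mul]
    apply Subtype.ext
    rw [Matrix.SpecialLinearGroup.coe_mul, Matrix.SpecialLinearGroup.coe_mul, antiM_coe, diagM_coe,
      sl_coe, Matrix.mul_fin_two, Matrix.mul_fin_two, hinv, Units.val_inv_eq_inv_val]
    congr 1
    ext i j
    fin_cases i <;> fin_cases j
    · simp
    · simp
      field_simp
    · simp
      exact hι'
    · simp
      field_simp
      linear_combination -hι'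

end matrices

section psl

variable {F : Type} [Field F]

theorem psl_dihedral (h2 : (2 : F) ≠ 0) {n : ℕ} (hn : 2 ≤ n) (a : Fˣ) (ha : orderOf a = 2 ^ (n + 1)) :
    ∃ f : DihedralGroup (2 ^ n) →* PSL(2, F), Function.Injective f ∧
      ∀ i : ZMod (2 ^ n), ∃ g : PSL(2, F),
        g * f (DihedralGroup.r (2 ^ (n - 1) : ZMod (2 ^ n))) * g⁻¹ = f (DihedralGroup.sr i) := by
  have hneg : a ^ (2 ^ n) = -1 := by
    have h1 : (a ^ (2 ^ n)) ^ 2 = 1 := by
      rw [← pow_mul, ← pow_succ, ← ha, pow_orderOf_eq_one]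
    have h3 : a ^ (2 ^ n) ≠ 1 := by
      intro h
      have := orderOf_dvd_of_pow_eq_one h
      rw [ha] at this
      have := Nat.le_of_dvd (by positivity) this
      have h5 : 2 ^ n < 2 ^ (n + 1) := Nat.pow_lt_pow_right (by norm_num) (by omega)
      omega
    have h4 : ((a ^ (2 ^ n) : Fˣ) : F) * ((a ^ (2 ^ n) : Fˣ) : F) = 1 := by
      rw [← Units.val_mul, ← pow_two, h1, Units.val_one]
    rcases mul_self_eq_one_iff.1 h4 with h | h
    · exact absurd (Units.ext h) h3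
    · apply Units.ext
      rw [h]
      simp
  have hne1 : (-1 : Fˣ) ≠ 1 := by
    intro h
    have h5 := congrArg Units.val h
    apply h2
    have h6 : (-1 : F) = 1 := by simpa using h5
    linear_combination -h6
  let φ : SL(2, F) →* PSL(2, F) := QuotientGroup.mk' (center SL(2, F))
  have hφ : ∀ A : SL(2, F), φ A = 1 ↔ A ∈ center SL(2, F) := fun A => QuotientGroup.eq_one_iff A
  have hD : (φ (diagM a)) ^ (2 ^ n) = 1 := by
    rw [← map_pow, ← map_pow, hφ, diag_mem_center, hneg]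
    simp
  have hW : φ (antiM (1 : Fˣ)) * φ (antiM (1 : Fˣ)) = 1 := by
    rw [← map_mul, anti_sq, hφ]
    exact neg_one_mem_center
  have hWD : φ (antiM (1 : Fˣ)) * φ (diagM a) * (φ (antiM (1 : Fˣ)))⁻¹ = (φ (diagM a))⁻¹ := by
    rw [mul_inv_eq_iff_eq_mul, ← map_inv, ← map_inv, ← map_mul, ← map_mul, anti_mul_diag,
      diag_mul_anti]
  have ho : orderOf (φ (diagM a)) = 2 ^ n := by
    obtain ⟨m, rfl⟩ := Nat.exists_eq_add_of_le' (show 1 ≤ n by omega)
    refine orderOf_eq_prime_pow ?_ hD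
    rw [← map_pow, ← map_pow, hφ, diag_mem_center, ← pow_add]
    have e : 2 ^ m + 2 ^ m = 2 ^ (m + 1) := by ring
    rw [e, hneg]
    exact hne1
  have hpow : ∀ k : ℕ, φ (antiM (1 : Fˣ)) * (φ (diagM a)) ^ k = φ (antiM ((a ^ k)⁻¹)) := by
    intro k
    rw [← map_pow, ← map_pow, ← map_mul, anti_mul_diag]
  have hne : ∀ k : ℕ, φ (antiM (1 : Fˣ)) * (φ (diagM a)) ^ k ≠ 1 := by
    intro k h
    rw [hpow, hφ] at h
    exact anti_notMem_center _ h
  refine ⟨dihHom (φ (diagM a)) (φ (antiM (1 : Fˣ))) hD hW hWD,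
    dihHom_injective _ _ hD hW hWD ho hne, fun i => ?_⟩
  have hι : a ^ (2 ^ (n - 1)) * a ^ (2 ^ (n - 1)) = -1 := by
    rw [← pow_add]
    have e : 2 ^ (n - 1) + 2 ^ (n - 1) = 2 ^ n := by
      obtain ⟨m, rfl⟩ := Nat.exists_eq_add_of_le' (show 1 ≤ n by omega)
      rw [Nat.add_sub_cancel]
      ring
    rw [e, hneg]
  obtain ⟨P, hP⟩ := conj_anti h2 ((a ^ i.val)⁻¹) (a ^ (2 ^ (n - 1))) hι
  refine ⟨φ P, ?_⟩
  rw [dihHom_r, dihHom_sr, hpow, ← hP, map_mul, map_mul, map_inv]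
  have hval : (2 ^ (n - 1) : ZMod (2 ^ n)).val = 2 ^ (n - 1) := by
    have h5 : ((2 ^ (n - 1) : ℕ) : ZMod (2 ^ n)).val = 2 ^ (n - 1) := by
      rw [ZMod.val_natCast]
      exact Nat.mod_eq_of_lt (Nat.pow_lt_pow_right (by norm_num) (by omega))
    push_cast at h5
    exact h5
  rw [hval, map_pow, map_pow]

end psl

theorem val_of_two_mul {n : ℕ} (hn : 1 ≤ n) (i : ZMod (2 ^ n)) (hi : i + i = 0) (h0 : i ≠ 0) :
    i = 2 ^ (n - 1) := by
  obtain ⟨m, rfl⟩ := Nat.exists_eq_add_of_le' hn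
  rw [Nat.add_sub_cancel]
  have h1 : ((i.val + i.val : ℕ) : ZMod (2 ^ (m + 1))) = 0 := by
    push_cast
    rw [ZMod.natCast_zmod_val, hi]
  rw [ZMod.natCast_eq_zero_iff] at h1
  have h2 := ZMod.val_lt i
  have h3 : i.val ≠ 0 := fun h => h0 ((ZMod.val_eq_zero i).1 h)
  obtain ⟨c, hc⟩ := h1
  have e : 2 ^ (m + 1) = 2 * 2 ^ m := by ring
  have h4 : i.val = 2 ^ m * c := by
    have : i.val + i.val = 2 * (2 ^ m * c) := by rw [hc, e]; ring
    omega
  have hc1 : c = 1 := by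
    rcases Nat.lt_or_ge c 2 with h | h
    · interval_cases c
      · simp at h4
        exact absurd h4 h0
      · rfl
    · exfalso
      have : 2 ^ m * 2 ≤ 2 ^ m * c := Nat.mul_le_mul_left _ h
      omega
  have h5 : ((i.val : ℕ) : ZMod (2 ^ (m + 1))) = ((2 ^ m : ℕ) : ZMod (2 ^ (m + 1))) := by
    rw [h4, hc1, mul_one]
  rw [ZMod.natCast_zmod_val] at h5
  rw [h5]
  push_cast
  rfl

theorem sharp {n : ℕ} (hn : 2 ≤ n) : ∃ (G : Type) (_ : Group G) (_ : Finite G) (T : Sylow 2 G),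
    IsSimpleGroup G ∧ Group.nilpotencyClass (T : Subgroup G) = n ∧
    Monoid.exponent (T : Subgroup G) = 2 ^ n ∧
    ∀ A : Subgroup G, E1adH4.StronglyClosed (T : Subgroup G) A →
      (∀ x ∈ A, ∀ y ∈ A, x * y = y * x) → A = ⊥ := by
  classical
  obtain ⟨q, hq3, hqp, hmod⟩ := Nat.forall_exists_prime_gt_and_modEq 3 (q := 2 ^ (n + 2))
    (a := 1 + 2 ^ (n + 1)) (by positivity) (by
      apply Nat.Coprime.pow_right
      rw [Nat.coprime_two_right]
      exact ⟨2 ^ n, by ring⟩)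
  haveI : Fact q.Prime := ⟨hqp⟩
  have hmod' : q % 2 ^ (n + 2) = 1 + 2 ^ (n + 1) := by
    rw [hmod]
    apply Nat.mod_eq_of_lt
    have e : 2 ^ (n + 2) = 2 ^ (n + 1) + 2 ^ (n + 1) := by ring
    have : 1 < 2 ^ (n + 1) := Nat.one_lt_two_pow (by omega)
    omega
  obtain ⟨c, hc⟩ : ∃ c, q = 2 ^ (n + 2) * c + (1 + 2 ^ (n + 1)) :=
    ⟨q / 2 ^ (n + 2), by rw [← hmod', Nat.div_add_mod]⟩
  have hq1 : q - 1 = 2 ^ (n + 1) * (2 * c + 1) := by
    rw [hc, ← add_assoc, Nat.add_right_comm, Nat.add_sub_cancel]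
    ring
  have hq2 : q + 1 = 2 * (2 * (2 ^ n * c + 2 ^ (n - 1)) + 1) := by
    have e : 2 ^ (n + 1) = 4 * 2 ^ (n - 1) := by
      obtain ⟨m, rfl⟩ := Nat.exists_eq_add_of_le' (show 1 ≤ n by omega)
      rw [Nat.add_sub_cancel]
      ring
    rw [hc, e]
    ring
  have h2 : (2 : ZMod q) ≠ 0 := by
    intro h
    have h1 : ((2 : ℕ) : ZMod q) = 0 := by exact_mod_cast h
    rw [ZMod.natCast_eq_zero_iff] at h1
    have := Nat.le_of_dvd (by norm_num) h1
    omega
  have hcard : Fintype.card (ZMod q) = q := ZMod.card q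
  obtain ⟨a, ha⟩ : ∃ a : (ZMod q)ˣ, orderOf a = 2 ^ (n + 1) := by
    obtain ⟨g, hg⟩ := IsCyclic.exists_ofOrder_eq_natCard (α := (ZMod q)ˣ)
    have hg' : orderOf g = 2 ^ (n + 1) * (2 * c + 1) := by
      rw [hg, Nat.card_eq_fintype_card, ZMod.card_units_eq_totient, Nat.totient_prime hqp, hq1]
    refine ⟨g ^ (2 * c + 1), ?_⟩
    rw [orderOf_pow_of_dvd (by omega) (by rw [hg']; exact dvd_mul_left _ _), hg',
      Nat.mul_div_cancel _ (by omega)]
  obtain ⟨f, hf, hconj⟩ := psl_dihedral h2 hn a ha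
  have hDc : Nat.card (DihedralGroup (2 ^ n)) = 2 ^ (n + 1) := by
    rw [DihedralGroup.nat_card]
    ring
  let e := MonoidHom.ofInjective hf
  have hRc : Nat.card f.range = 2 ^ (n + 1) := by
    rw [← hDc]
    exact (Nat.card_congr e.toEquiv).symm
  have hR1 : IsPGroup 2 f.range := IsPGroup.of_card hRc
  have hcardP : Nat.card PSL(2, ZMod q) =
      2 ^ (n + 1) * (q * (2 * c + 1) * (2 * (2 ^ n * c + 2 ^ (n - 1)) + 1)) := by
    have h3 := card_PSL (F := ZMod q) h2
    rw [hcard, hq1, hq2] at h3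
    have h4 : Nat.card PSL(2, ZMod q) * 2 =
        (2 ^ (n + 1) * (q * (2 * c + 1) * (2 * (2 ^ n * c + 2 ^ (n - 1)) + 1))) * 2 := by
      rw [h3]
      ring
    exact Nat.eq_of_mul_eq_mul_right (by norm_num) h4
  have hidx : f.range.index = q * (2 * c + 1) * (2 * (2 ^ n * c + 2 ^ (n - 1)) + 1) := by
    have h3 := f.range.card_mul_index
    rw [hRc, hcardP] at h3
    exact Nat.eq_of_mul_eq_mul_left (by positivity) h3
  have hR2 : ¬ 2 ∣ f.range.index := by
    rw [hidx, ← even_iff_two_dvd, Nat.not_even_iff_odd]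
    refine Odd.mul (Odd.mul (hqp.odd_of_ne_two (by omega)) ⟨c, rfl⟩) ⟨_, rfl⟩
  refine ⟨PSL(2, ZMod q), inferInstance, inferInstance, hR1.toSylow hR2,
    Matrix.ProjectiveSpecialLinearGroup.rank_two_simple (by
      rw [Nat.card_eq_fintype_card, hcard]; omega), ?_, ?_, ?_⟩
  · rw [IsPGroup.toSylow_coe]
    haveI : Group.IsNilpotent (DihedralGroup (2 ^ n)) := (dihedral_isPGroup n).isNilpotent
    haveI : Group.IsNilpotent f.range := hR1.isNilpotent
    rw [← nilpotencyClass_congr e, nilpotencyClass_dihedral (by omega)]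
  · rw [IsPGroup.toSylow_coe, ← Monoid.exponent_eq_of_mulEquiv e, DihedralGroup.exponent]
    exact Nat.lcm_eq_left (dvd_pow_self 2 (by omega))
  · rintro A ⟨hAT, hA⟩ hcomm
    rw [IsPGroup.toSylow_coe] at hAT hA
    by_contra hne
    obtain ⟨x, hxA, hx1⟩ : ∃ x ∈ A, x ≠ 1 := by
      by_contra hcon
      push Not at hcon
      exact hne ((Subgroup.eq_bot_iff_forall A).2 hcon)
    obtain ⟨k, hk⟩ := (IsPGroup.iff_orderOf.1 hR1) ⟨x, hAT hxA⟩
    rw [Subgroup.orderOf_mk] at hk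
    obtain ⟨k', rfl⟩ : ∃ k', k = k' + 1 := by
      rcases k with _ | k'
      · rw [pow_zero, orderOf_eq_one_iff] at hk
        exact absurd hk hx1
      · exact ⟨k', rfl⟩
    have ht1 : x ^ 2 ^ k' ≠ 1 := by
      intro h
      have h3 := orderOf_dvd_of_pow_eq_one h
      rw [hk] at h3
      have h4 := Nat.le_of_dvd (by positivity) h3
      have h5 : 2 ^ k' < 2 ^ (k' + 1) := Nat.pow_lt_pow_right (by norm_num) (by omega)
      omega
    have ht2 : x ^ 2 ^ k' * x ^ 2 ^ k' = 1 := by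
      rw [← pow_two, ← pow_mul, ← pow_succ, ← hk, pow_orderOf_eq_one]
    have htA : x ^ 2 ^ k' ∈ A := A.pow_mem hxA _
    obtain ⟨d, hd⟩ := hAT htA
    rw [← hd] at ht1 ht2 htA
    have hcen : f (DihedralGroup.r (2 ^ (n - 1) : ZMod (2 ^ n))) ∈ A := by
      rcases d with i | i
      · have h3 : (DihedralGroup.r i : DihedralGroup (2 ^ n)) * DihedralGroup.r i = 1 := by
          apply hf
          rw [map_mul, ht2, map_one]
        rw [DihedralGroup.r_mul_r, ← DihedralGroup.r_zero] at h3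
        have h4 : i + i = 0 := DihedralGroup.r.inj h3
        have h5 : i ≠ 0 := by
          rintro rfl
          apply ht1
          rw [DihedralGroup.r_zero, map_one]
        rw [← val_of_two_mul (by omega) i h4 h5]
        exact htA
      · obtain ⟨g, hg⟩ := hconj i
        have h3 : f (DihedralGroup.r (2 ^ (n - 1) : ZMod (2 ^ n))) =
            g⁻¹ * f (DihedralGroup.sr i) * g⁻¹⁻¹ := by
          rw [← hg]
          group
        rw [h3]
        apply hA _ htA
        rw [← h3]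
        exact ⟨_, rfl⟩
    have hall : ∀ i : ZMod (2 ^ n), f (DihedralGroup.sr i) ∈ A := by
      intro i
      obtain ⟨g, hg⟩ := hconj i
      rw [← hg]
      apply hA _ hcen
      rw [hg]
      exact ⟨_, rfl⟩
    have h3 := hcomm _ (hall 0) _ (hall 1)
    rw [← map_mul, ← map_mul] at h3
    have h4 := hf h3
    rw [DihedralGroup.sr_mul_sr, DihedralGroup.sr_mul_sr] at h4
    have h5 : (1 : ZMod (2 ^ n)) - 0 = 0 - 1 := DihedralGroup.r.inj h4
    have h6 : ((2 : ℕ) : ZMod (2 ^ n)) = 0 := by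
      push_cast
      linear_combination h5
    rw [ZMod.natCast_eq_zero_iff] at h6
    have h7 := Nat.le_of_dvd (by norm_num) h6
    have h8 : 2 ^ 2 ≤ 2 ^ n := Nat.pow_le_pow_right (by norm_num) hn
    omega

end E1adE
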